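import Mathlib

set_option autoImplicit false

namespace Pool.Agent.Results.MP_3dc14a_nt.SparsePrimeRows

open Finset Nat

/-- The entry `H_{r,k} = F_{k-1} F_{r-k+2} + F_k F_{r-k}` of the determinant Hosoya triangle,
for `1 ≤ k ≤ r`. -/
def H (r k : ℕ) : ℕ := fib (k - 1) * fib (r - k + 2) + fib k * fib (r - k)

/-- The number of positions `k`, `1 ≤ k ≤ n`, at which the row `n` has a prime entry. -/
noncomputable def primeEntries (n : ℕ) : ℕ := ((Icc 1 n).filter fun k => (H n k).Prime).card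

theorem fib_dvd_H_left {n k d : ℕ} (hkn : k ≤ n) (hd : d ∣ n + 2) (hdk : d ∣ k) :
    fib d ∣ H n k := by
  have h1 : d ∣ n - k + 2 := by
    have : n - k + 2 = n + 2 - k := by omega
    rw [this]
    exact Nat.dvd_sub hd hdk
  exact Dvd.dvd.add (Dvd.dvd.mul_left (fib_dvd _ _ h1) _) (Dvd.dvd.mul_right (fib_dvd _ _ hdk) _)

theorem fib_dvd_H_right {n k d : ℕ} (hk : 1 ≤ k) (hkn : k ≤ n) (hd : d ∣ n + 2)
    (hdk : d ∣ k + 1) : fib d ∣ H n k := by
  obtain ⟨j, rfl⟩ : ∃ j, k = j + 1 := ⟨k - 1, by omega⟩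
  have h1 : d ∣ n - (j + 1) + 1 := by
    have : n - (j + 1) + 1 = n + 2 - (j + 1 + 1) := by omega
    rw [this]
    exact Nat.dvd_sub hd hdk
  have e : H n (j + 1) =
      fib j * fib (n - (j + 1) + 1) + fib (j + 1 + 1) * fib (n - (j + 1)) := by
    unfold H
    rw [Nat.add_sub_cancel, fib_add_two (n := n - (j + 1)), fib_add_two (n := j)]
    ring
  rw [e]
  exact Dvd.dvd.add (Dvd.dvd.mul_left (fib_dvd _ _ h1) _) (Dvd.dvd.mul_right (fib_dvd _ _ hdk) _)

theorem fib_le_H {n k : ℕ} (hk : 1 ≤ k) (hkn : k ≤ n) : fib (n - 1) ≤ H n k := by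
  obtain ⟨a, rfl⟩ : ∃ a, k = a + 1 := ⟨k - 1, by omega⟩
  obtain ⟨b, rfl⟩ : ∃ b, n = a + 1 + b := ⟨n - (a + 1), by omega⟩
  have e1 : a + 1 + b - (a + 1) = b := by omega
  have e2 : a + 1 + b - 1 = a + b := by omega
  unfold H
  rw [e1, e2, Nat.add_sub_cancel]
  rcases b with _ | b
  · simp
  · rw [← Nat.add_assoc, fib_add]
    have h : fib b ≤ fib (b + 1 + 2) := fib_mono (by omega)
    exact Nat.add_le_add_right (Nat.mul_le_mul_left _ h) _

/-- If `d ≥ 3` divides `n + 2` properly and divides `k` or `k + 1`, then `H_{n,k}` is not prime. -/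
theorem not_prime_H {n k d : ℕ} (hn : 5 ≤ n) (hk : 1 ≤ k) (hkn : k ≤ n) (hd3 : 3 ≤ d)
    (hd : d ∣ n + 2) (hdne : d ≠ n + 2) (hdk : d ∣ k ∨ d ∣ k + 1) : ¬ (H n k).Prime := by
  intro hp
  have hdvd : fib d ∣ H n k := by
    rcases hdk with h | h
    · exact fib_dvd_H_left hkn hd h
    · exact fib_dvd_H_right hk hkn hd h
  have hdlt : d < n - 1 := by
    obtain ⟨c, hc⟩ := hd
    have hc2 : 2 ≤ c := by
      rcases c with _ | _ | c
      · omega
      · omega
      · omega
    have : d * 2 ≤ d * c := Nat.mul_le_mul_left d hc2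
    omega
  have h1 : fib d < fib (n - 1) := (fib_lt_fib (by omega)).mpr hdlt
  have h2 : fib 3 ≤ fib d := fib_mono hd3
  have h3 : fib 3 = 2 := by decide
  have h4 := fib_le_H hk hkn
  rcases (Nat.dvd_prime hp).mp hdvd with h | h <;> omega

/-- The primes between `5` and `y`. -/
def midPrimes (y : ℕ) : Finset ℕ := (range (y + 1)).filter fun p => p.Prime ∧ 5 ≤ p

/-- Residues `k < ∏ p` with `p ∤ k` and `p ∤ k + 1` for all `p` in a set of primes. -/
def free (s : Finset ℕ) : Finset ℕ :=
  (range (∏ p ∈ s, p)).filter fun k => ∀ p ∈ s, ¬ p ∣ k ∧ ¬ p ∣ k + 1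

theorem card_free_le (s : Finset ℕ) (hs : ∀ p ∈ s, p.Prime ∧ 5 ≤ p) :
    (free s).card ≤ ∏ p ∈ s, (p - 2) := by
  induction s using Finset.induction_on with
  | empty => simp [free]
  | insert q s hq ih =>
    have hq' := hs q (mem_insert_self q s)
    have hs' : ∀ p ∈ s, p.Prime ∧ 5 ≤ p := fun p hp => hs p (mem_insert_of_mem hp)
    have hcop : Nat.Coprime q (∏ p ∈ s, p) := by
      apply Nat.Coprime.prod_right
      intro p hp
      rw [Nat.coprime_primes hq'.1 (hs' p hp).1]
      rintro rfl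
      exact hq hp
    have hMpos : 0 < ∏ p ∈ s, p := prod_pos fun p hp => (hs' p hp).1.pos
    rw [prod_insert hq]
    set R : Finset ℕ := (range q).filter fun r => r ≠ 0 ∧ r ≠ q - 1 with hR
    have hRcard : R.card = q - 2 := by
      have e : R = Ico 1 (q - 1) := by
        ext r
        simp only [hR, mem_filter, mem_range, mem_Ico]
        omega
      rw [e, Nat.card_Ico]
      omega
    calc (free (insert q s)).card ≤ (R ×ˢ free s).card := by
          apply card_le_card_of_injOn (fun k => (k % q, k % ∏ p ∈ s, p))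
          · intro k hk
            simp only [free, coe_filter, mem_range, Set.mem_ofPred_eq, mem_insert,
              forall_eq_or_imp] at hk
            obtain ⟨_, ⟨hk1, hk2⟩, hk3⟩ := hk
            simp only [coe_product, Set.mem_prod, mem_coe]
            constructor
            · simp only [hR, mem_filter, mem_range]
              refine ⟨Nat.mod_lt _ (by omega), ?_, ?_⟩
              · intro h
                exact hk1 (Nat.dvd_of_mod_eq_zero h)
              · intro h
                apply hk2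
                apply Nat.dvd_of_mod_eq_zero
                rw [Nat.add_mod, h, Nat.mod_eq_of_lt (show 1 < q by omega),
                  show q - 1 + 1 = q by omega, Nat.mod_self]
            · simp only [free, mem_filter, mem_range]
              refine ⟨Nat.mod_lt _ hMpos, fun p hp => ?_⟩
              have hpd : p ∣ ∏ p ∈ s, p := dvd_prod_of_mem _ hp
              obtain ⟨g1, g2⟩ := hk3 p hp
              constructor
              · intro h
                exact g1 ((Nat.dvd_mod_iff hpd).mp h)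
              · intro h
                apply g2
                have hz := Nat.div_add_mod k (∏ p ∈ s, p)
                rw [← hz, Nat.add_assoc]
                exact Dvd.dvd.add (Dvd.dvd.mul_right hpd _) h
          · intro a ha b hb hab
            simp only [free, coe_filter, mem_range, Set.mem_ofPred_eq] at ha hb
            simp only [Prod.mk.injEq] at hab
            rw [prod_insert hq] at ha hb
            have h1 : a ≡ b [MOD q * ∏ p ∈ s, p] :=
              (Nat.modEq_and_modEq_iff_modEq_mul hcop).mp ⟨hab.1, hab.2⟩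
            exact Nat.ModEq.eq_of_lt_of_lt h1 ha.1 hb.1
      _ = (q - 2) * (free s).card := by rw [card_product, hRcard]
      _ ≤ (q - 2) * ∏ p ∈ s, (p - 2) := Nat.mul_le_mul_left _ (ih hs')

/-- Euler: `log (y + 1) ≤ ∏_{p ≤ y} (1 - 1/p)⁻¹`. -/
theorem log_le_euler (y : ℕ) :
    Real.log ((y + 1 : ℕ) : ℝ) ≤ ∏ p ∈ primesBelow (y + 1), (1 - (p : ℝ)⁻¹)⁻¹ := by
  let f : ℕ →* ℝ :=
    { toFun := fun n => (n : ℝ)⁻¹
      map_one' := by simp
      map_mul' := fun a b => by simp [mul_comm] }
  have hf : ∀ {p : ℕ}, p.Prime → ‖f p‖ < 1 := by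
    intro p hp
    show ‖((p : ℝ)⁻¹)‖ < 1
    have h1 : (1 : ℝ) < p := by exact_mod_cast hp.one_lt
    rw [norm_inv, Real.norm_natCast]
    exact inv_lt_one_of_one_lt₀ h1
  have hsum := (EulerProduct.summable_and_hasSum_smoothNumbers_prod_primesBelow_geometric hf
    (y + 1)).2
  have h1 : ∑ m ∈ (Icc 1 y).subtype (· ∈ smoothNumbers (y + 1)), f m ≤
      ∏ p ∈ primesBelow (y + 1), (1 - f p)⁻¹ := by
    apply sum_le_hasSum _ _ hsum
    intro m _
    show (0 : ℝ) ≤ ((m : ℕ) : ℝ)⁻¹
    positivity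
  have h2 : ∑ m ∈ (Icc 1 y).subtype (· ∈ smoothNumbers (y + 1)), f m =
      ∑ m ∈ Icc 1 y, (m : ℝ)⁻¹ := by
    rw [sum_subtype_eq_sum_filter (f := fun m : ℕ => f m)]
    rw [filter_true_of_mem]
    · rfl
    · intro m hm
      rw [mem_Icc] at hm
      exact mem_smoothNumbers_of_lt (by omega) (by omega)
  have h3 : ((harmonic y : ℚ) : ℝ) = ∑ m ∈ Icc 1 y, (m : ℝ)⁻¹ := by
    rw [harmonic_eq_sum_Icc]
    push_cast
    rfl
  calc Real.log ((y + 1 : ℕ) : ℝ) ≤ ((harmonic y : ℚ) : ℝ) := log_add_one_le_harmonic y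
    _ = ∑ m ∈ (Icc 1 y).subtype (· ∈ smoothNumbers (y + 1)), f m := by rw [h2, h3]
    _ ≤ _ := h1

theorem primesBelow_eq (y : ℕ) (hy : 4 ≤ y) :
    primesBelow (y + 1) = insert 2 (insert 3 (midPrimes y)) := by
  ext p
  simp only [mem_primesBelow, midPrimes, mem_insert, mem_filter, mem_range]
  constructor
  · rintro ⟨h1, h2⟩
    have := h2.two_le
    by_cases h4 : p = 4
    · subst h4
      norm_num at h2
    · rcases Nat.lt_or_ge p 5 with h | h
      · omega
      · exact Or.inr (Or.inr ⟨h1, h2, h⟩)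
  · rintro (rfl | rfl | ⟨h1, h2, _⟩)
    · exact ⟨by omega, Nat.prime_two⟩
    · exact ⟨by omega, Nat.prime_three⟩
    · exact ⟨h1, h2⟩

theorem mid_prod_bound (y : ℕ) (hy : 4 ≤ y) :
    ∏ p ∈ midPrimes y, (((p - 2 : ℕ) : ℝ)) ≤
      (∏ p ∈ midPrimes y, (p : ℝ)) * (9 / Real.log ((y + 1 : ℕ) : ℝ) ^ 2) := by
  have hmem : ∀ p ∈ midPrimes y, p.Prime ∧ 5 ≤ p := by
    intro p hp
    simp only [midPrimes, mem_filter] at hp
    exact hp.2
  have hlog : 0 < Real.log ((y + 1 : ℕ) : ℝ) := by
    apply Real.log_pos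
    exact_mod_cast (by omega : 1 < y + 1)
  -- `E = ∏ (1 - 1/p)` over the middle primes
  set E : ℝ := ∏ p ∈ midPrimes y, (1 - (p : ℝ)⁻¹) with hE
  have hEpos : 0 < E := by
    apply prod_pos
    intro p hp
    have h5 : (5 : ℝ) ≤ p := by exact_mod_cast (hmem p hp).2
    have : (p : ℝ)⁻¹ < 1 := inv_lt_one_of_one_lt₀ (by linarith)
    linarith
  have h1 := log_le_euler y
  rw [primesBelow_eq y hy] at h1
  have h2n : (2 : ℕ) ∉ insert 3 (midPrimes y) := by
    simp [midPrimes]
  have h3n : (3 : ℕ) ∉ midPrimes y := by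
    simp [midPrimes]
  rw [prod_insert h2n, prod_insert h3n, prod_inv_distrib, ← hE] at h1
  have h2 : Real.log ((y + 1 : ℕ) : ℝ) * E ≤ 3 := by
    have h3 : (1 - ((2 : ℕ) : ℝ)⁻¹)⁻¹ * ((1 - ((3 : ℕ) : ℝ)⁻¹)⁻¹ * E⁻¹) = 3 * E⁻¹ := by
      push_cast
      ring
    rw [h3] at h1
    calc Real.log ((y + 1 : ℕ) : ℝ) * E ≤ (3 * E⁻¹) * E := by
          exact mul_le_mul_of_nonneg_right h1 hEpos.le
      _ = 3 := by
          field_simp
  have h4 : E ^ 2 ≤ 9 / Real.log ((y + 1 : ℕ) : ℝ) ^ 2 := by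
    rw [le_div_iff₀ (by positivity)]
    have : 0 ≤ Real.log ((y + 1 : ℕ) : ℝ) * E := by positivity
    nlinarith
  calc ∏ p ∈ midPrimes y, (((p - 2 : ℕ) : ℝ))
      ≤ ∏ p ∈ midPrimes y, ((p : ℝ) * (1 - (p : ℝ)⁻¹) ^ 2) := by
        apply prod_le_prod
        · intro p _
          positivity
        · intro p hp
          have h5 : 5 ≤ p := (hmem p hp).2
          have h5' : (0 : ℝ) < p := by
            exact_mod_cast (by omega : 0 < p)
          rw [Nat.cast_sub (by omega)]
          have e : (p : ℝ) * (1 - (p : ℝ)⁻¹) ^ 2 = p - 2 + (p : ℝ)⁻¹ := by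
            field_simp
            ring
          rw [e]
          have : 0 < (p : ℝ)⁻¹ := by positivity
          push_cast
          linarith
    _ = (∏ p ∈ midPrimes y, (p : ℝ)) * E ^ 2 := by
        rw [prod_mul_distrib, prod_pow]
    _ ≤ _ := by
        apply mul_le_mul_of_nonneg_left h4
        positivity

/-- There are infinitely many `n` not congruent to `1` modulo `3` such that the row `n` of the
determinant Hosoya triangle has at most `14 n / (log log n)^2` prime entries. -/
theorem result : ∀ N : ℕ, ∃ n : ℕ, N ≤ n ∧ n % 3 ≠ 1 ∧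
    (primeEntries n : ℝ) ≤ 14 * n / Real.log (Real.log n) ^ 2 := by
  intro N
  obtain ⟨y, hyN, hyp⟩ := Nat.exists_infinite_primes (N + 20)
  have hmem : ∀ p ∈ midPrimes y, p.Prime ∧ 5 ≤ p := by
    intro p hp
    simp only [midPrimes, mem_filter] at hp
    exact hp.2
  obtain ⟨M, hM⟩ : ∃ M, M = ∏ p ∈ midPrimes y, p := ⟨_, rfl⟩
  have hymem : y ∈ midPrimes y := by
    simp only [midPrimes, mem_filter, mem_range]
    exact ⟨by omega, hyp, by omega⟩
  have h5mem : 5 ∈ midPrimes y := by
    simp only [midPrimes, mem_filter, mem_range]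
    exact ⟨by omega, by norm_num, le_rfl⟩
  have hMpos : 0 < M := by
    rw [hM]
    exact prod_pos fun p hp => (hmem p hp).1.pos
  -- `5 * y` divides `M`
  have h5y : 5 * y ∣ M := by
    have hc : Nat.Coprime 5 y := by
      rw [Nat.coprime_primes (by norm_num) hyp]
      omega
    exact Nat.Coprime.mul_dvd_of_dvd_of_dvd hc (hM ▸ dvd_prod_of_mem _ h5mem)
      (hM ▸ dvd_prod_of_mem _ hymem)
  have hMge : 5 * y ≤ M := Nat.le_of_dvd hMpos h5y
  have hM3 : M % 3 ≠ 0 := by
    intro h0
    have h3 : 3 ∣ ∏ p ∈ midPrimes y, p := hM ▸ Nat.dvd_of_mod_eq_zero h0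
    rw [Nat.prime_three.prime.dvd_finsetProd_iff] at h3
    obtain ⟨p, hp, h3p⟩ := h3
    have := (Nat.prime_dvd_prime_iff_eq Nat.prime_three (hmem p hp).1).mp h3p
    have := (hmem p hp).2
    omega
  have hM4 : M ≤ 4 ^ y := by
    calc M ≤ primorial y := by
          rw [hM, primorial]
          apply prod_le_prod_of_subset_of_one_le'
          · intro p hp
            simp only [midPrimes, mem_filter, mem_range] at hp
            simp only [mem_filter, mem_range]
            exact ⟨by omega, hp.2.1⟩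
          · intro p hp _
            simp only [mem_filter, mem_range] at hp
            exact hp.2.one_lt.le
      _ ≤ 4 ^ y := primorial_le_four_pow y
  refine ⟨M - 2, by omega, by omega, ?_⟩
  obtain ⟨n, hn⟩ : ∃ n, M = n + 2 := ⟨M - 2, by omega⟩
  have hnM : M - 2 = n := by omega
  rw [hnM]
  -- the prime entries sit at free positions
  have hcard : primeEntries n ≤ ∏ p ∈ midPrimes y, (p - 2) := by
    refine le_trans ?_ (card_free_le (midPrimes y) hmem)
    apply card_le_card
    intro k hk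
    rw [mem_filter, mem_Icc] at hk
    simp only [free, mem_filter, mem_range]
    refine ⟨by rw [← hM]; omega, fun p hp => ?_⟩
    have hpM : p ∣ n + 2 := by
      rw [← hn, hM]
      exact dvd_prod_of_mem _ hp
    have hpy : p < y + 1 := by
      simp only [midPrimes, mem_filter, mem_range] at hp
      exact hp.1
    have hp5 := (hmem p hp).2
    constructor
    · intro h
      exact not_prime_H (by omega) hk.1.1 hk.1.2 (by omega) hpM (by omega) (Or.inl h) hk.2
    · intro h
      exact not_prime_H (by omega) hk.1.1 hk.1.2 (by omega) hpM (by omega) (Or.inr h) hk.2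
  -- analytic estimates
  set L : ℝ := Real.log ((y + 1 : ℕ) : ℝ) with hL
  have hL2 : 2 < L := by
    rw [hL, Real.lt_log_iff_exp_lt (by positivity)]
    have h1 : Real.exp 1 < 2.7182818286 := Real.exp_one_lt_d9
    have h2 : Real.exp 2 = Real.exp 1 * Real.exp 1 := by
      rw [← Real.exp_add]
      norm_num
    have h3 : (20 : ℝ) ≤ ((y + 1 : ℕ) : ℝ) := by exact_mod_cast (by omega : 20 ≤ y + 1)
    rw [h2]
    nlinarith [Real.exp_pos 1]
  have hc1 : (primeEntries n : ℝ) ≤ M * (9 / L ^ 2) := by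
    calc (primeEntries n : ℝ) ≤ ((∏ p ∈ midPrimes y, (p - 2) : ℕ) : ℝ) := by exact_mod_cast hcard
      _ = ∏ p ∈ midPrimes y, (((p - 2 : ℕ) : ℝ)) := by push_cast; rfl
      _ ≤ (∏ p ∈ midPrimes y, (p : ℝ)) * (9 / L ^ 2) := mid_prod_bound y (by omega)
      _ = M * (9 / L ^ 2) := by
          rw [hM]
          push_cast
          rfl
  have hn98 : (98 : ℝ) ≤ n := by exact_mod_cast (by omega : 98 ≤ n)
  have hlogn : 1 < Real.log n := by
    rw [Real.lt_log_iff_exp_lt (by linarith)]
    have h1 : Real.exp 1 < 2.7182818286 := Real.exp_one_lt_d9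
    linarith
  have hll : 0 < Real.log (Real.log n) := Real.log_pos hlogn
  have hll2 : Real.log (Real.log n) ≤ 6 / 5 * L := by
    have h1 : Real.log n ≤ y * Real.log 4 := by
      rw [← Real.log_pow]
      apply Real.log_le_log (by linarith)
      have : (n : ℝ) ≤ ((4 ^ y : ℕ) : ℝ) := by exact_mod_cast (by omega : n ≤ 4 ^ y)
      simpa using this
    have hy0 : (0 : ℝ) < y := by exact_mod_cast (by omega : 0 < y)
    have hlog4 : Real.log 4 = 2 * Real.log 2 := by
      rw [show (4 : ℝ) = 2 ^ 2 by norm_num, Real.log_pow]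
      norm_num
    have h4pos : 0 < Real.log 4 := Real.log_pos (by norm_num)
    have h2 : Real.log (Real.log n) ≤ Real.log y + Real.log (Real.log 4) := by
      rw [← Real.log_mul hy0.ne' h4pos.ne']
      exact Real.log_le_log (by linarith) h1
    have h3 : Real.log (Real.log 4) ≤ Real.log 4 - 1 := Real.log_le_sub_one_of_pos h4pos
    have h5 : Real.log 2 < 0.6931471808 := Real.log_two_lt_d9
    have h6 : Real.log y ≤ L := by
      rw [hL]
      apply Real.log_le_log hy0
      push_cast
      linarith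
    rw [hlog4] at h3
    have h7 : Real.log (Real.log 4) ≤ 0.4 := by
      rw [hlog4]
      linarith
    linarith
  have hsq : Real.log (Real.log n) ^ 2 ≤ 36 / 25 * L ^ 2 := by
    nlinarith
  have hMn : (M : ℝ) = n + 2 := by
    rw [hn]
    push_cast
    ring
  rw [le_div_iff₀ (by positivity)]
  have hL0 : L ≠ 0 := by linarith
  have hfin1 : (primeEntries n : ℝ) * Real.log (Real.log n) ^ 2 ≤
      ((M : ℝ) * (9 / L ^ 2)) * (36 / 25 * L ^ 2) :=
    mul_le_mul hc1 hsq (by positivity) (by positivity)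
  have hfin2 : ((M : ℝ) * (9 / L ^ 2)) * (36 / 25 * L ^ 2) = 324 / 25 * (M : ℝ) := by
    field_simp
    norm_num
  rw [hfin2, hMn] at hfin1
  linarith

end Pool.Agent.Results.MP_3dc14a_nt.SparsePrimeRows
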